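import Pool.Agent.T2h2.TI.Fin

/-!
# MP_64c1fc_an: Q1 is false

Let `T_α` be the Tanaka-Ito map, `E` the bifurcation set of matching and `E₀` its non-isolated
points.  Then the closure of `E ∩ ℚ` is not `E₀`: the window `(0.69633, 0.69635)` contains
infinitely many points of `E`, hence a point of `E₀` (all of them lie in a small compact part of
the window), but no rational point of `E`.

Proof.  For `α` in the window let `c = 1 - α`, `d = α / (1 + α)`, `t_1 = 1/c - 3`, `t_2 = 1/t_1 - 3`.
From some time on the two orbits are in one of two states: `(x, y) = (t, -t)` with `t ≤ c` or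
`(x, y) = (t, 1 - t)` with `t > c`, where `t` runs through the orbit of `t_1` under the branches
`t ↦ 1/t - 3` (for `t ≤ c`, one step) and `t ↦ t/(1 - 2t) - 2` (for `t ≥ d`, two steps); when `t`
falls in the hole `(c, d)`, there is matching.  The interval `[t_1, t_2]`, which does not contain
`0`, is mapped to itself.  For a rational `α` both branches decrease the denominator of `t`, so the
orbit falls in the hole, after finitely many steps in the interior of the branches; this persists
for all parameters close to `α`, and `α` lies in a matching interval.  If on the other hand the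
orbit of `t_1` never falls in the hole, then the orbit of `α` is positive and the orbit of `α - 1`
is negative infinitely often, so there is no matching at all.  This is the case for infinitely many
`α` in the window, for which the orbit of `t_1` ends in the fixed point `(√13 - 3)/2` of the first
branch.
-/

set_option autoImplicit false

open Set

namespace Pool.Agent.Results.MP_64c1fc_an.NotInTheClosure

open Pool.Agent.T2h2.TI

/-- **Q1 is false.**  The closure of `E ∩ ℚ` is not the set `E₀` of non-isolated points of `E`.
There is a point of `E₀` in the window `(0.69633, 0.69635)`, and no rational number of the window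
is in `E`.  (The last part says that `E` may also be defined with all intervals with (i) and (ii),
maximal or not.) -/
theorem result :
    closure (bifurcationSet ∩ range ((↑) : ℚ → ℝ)) ≠ nonIsolated bifurcationSet ∧
    (∃ β ∈ nonIsolated bifurcationSet, β ∈ Ioo (0.69633 : ℝ) 0.69635) ∧
    (∀ r : ℚ, (r : ℝ) ∈ Ioo (0.69633 : ℝ) 0.69635 → (r : ℝ) ∉ bifurcationSet) ∧
    bifurcationSet = Icc 0 1 \ ⋃₀ {J : Set ℝ | ∃ M N : ℕ, 1 ≤ M ∧ 1 ≤ N ∧
      IsOpenInterval J ∧ Matches M N J} := by
  have e1 : (0.69633 : ℝ) = 69633 / 100000 := by norm_num
  have e2 : (0.69635 : ℝ) = 69635 / 100000 := by norm_num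
  rw [e1, e2]
  obtain ⟨β, hβ, hW, hr⟩ := main
  exact ⟨closure_ne, ⟨β, hβ, hW⟩, hr, E_eq⟩

end Pool.Agent.Results.MP_64c1fc_an.NotInTheClosure
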